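import Mathlib
import Pool.Agent.X87.OP.Share
import Pool.Agent.Y327.Full

/-! # MP_77d073_nt: Oppenheim's conjecture as a uniqueness statement

Let `n ≥ 3`; an arrangement is given by `n` linearly independent real linear forms
`L 1, …, L n`, it is admissible if their product is bounded away from zero at the nonzero integer
points.

1. If an admissible arrangement has one hyperplane in common with an admissible arrangement which
   satisfies Oppenheim's conclusion, then the two arrangements have the same hyperplanes.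
2. Let `L` be admissible, let `k` be an index and let `𝒯` be a set of real numbers which contains
   arbitrarily long intervals, for example a half-line or a sparse sequence of longer and longer
   intervals. Oppenheim's conclusion holds for `L` if and only if in the limit set of `L` modulo
   `GL_n(ℤ)` under the one-parameter group which scales the form `k` against the others, at the times
   in `𝒯`, the forms other than the form `k` determine the form `k` up to a factor.
3. Oppenheim's conjecture in dimension `n` is equivalent to each of the following statements.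
   * Two admissible arrangements with one hyperplane in common have the same hyperplanes.
   * If two admissible arrangements have `n - 1` hyperplanes in common, then the last ones agree,
     too.
   * For fixed `i ≠ j`: the arrangements `L` and `L` with `L i` replaced by `L i + L j` are never
     both admissible. -/

set_option autoImplicit false

open Filter Topology Matrix

namespace Pool.Agent.Results.MP_77d073_nt.LastHyperplane

variable {n : ℕ}

/-- the value of the linear form with the coefficients `L i` at an integer point -/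
noncomputable def val (L : Fin n → Fin n → ℝ) (i : Fin n) (p : Fin n → ℤ) : ℝ :=
  ∑ j : Fin n, L i j * (p j : ℝ)

/-- the product of the linear forms with the coefficients `L i`, at an integer point -/
noncomputable def F (L : Fin n → Fin n → ℝ) (p : Fin n → ℤ) : ℝ := ∏ i : Fin n, val L i p

/-- the product is bounded away from zero at the nonzero integer points -/
def BoundedAway (L : Fin n → Fin n → ℝ) : Prop :=
  ∃ ν : ℝ, 0 < ν ∧ ∀ p : Fin n → ℤ, p ≠ 0 → ν ≤ |F L p|

/-- linearly independent linear forms with the product bounded away from zero at the nonzero integer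
points -/
def Admissible (L : Fin n → Fin n → ℝ) : Prop := LinearIndependent ℝ L ∧ BoundedAway L

/-- Oppenheim's conclusion: there is an irreducible RS-matrix whose invariant planes are the
hyperplanes `L i = 0`. -/
def HasMatrix (L : Fin n → Fin n → ℝ) : Prop :=
  ∃ A : Matrix (Fin n) (Fin n) ℤ,
    A.det = 1 ∧
    Irreducible (A.charpoly.map (Int.castRingHom ℚ)) ∧
    (∀ z : ℂ, Polynomial.aeval z A.charpoly = 0 → z.im = 0) ∧
    ∀ i : Fin n, ∀ x : Fin n → ℝ, ∑ j, L i j * x j = 0 →
      ∑ j, L i j * ((A.map (Int.cast : ℤ → ℝ)).mulVec x) j = 0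

/-- Oppenheim's conjecture in dimension `n` -/
def Oppenheim (n : ℕ) : Prop :=
  ∀ L : Fin n → Fin n → ℝ, LinearIndependent ℝ L → BoundedAway L → HasMatrix L

/-- the hyperplanes `L i = 0` and `L' i = 0` are the same, up to their order -/
def SameHyperplanes (L L' : Fin n → Fin n → ℝ) : Prop :=
  ∃ σ : Equiv.Perm (Fin n), ∀ l : Fin n, ∃ a : ℝ, a ≠ 0 ∧ L' l = a • L (σ l)

/-- the set contains arbitrarily long intervals -/
def LongIntervals (𝒯 : Set ℝ) : Prop := ∀ m : ℕ, ∃ t : ℝ, Set.Icc (t - m) (t + m) ⊆ 𝒯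

/-- the diagonal entries of the one-parameter group of the index `k` -/
noncomputable def ray (k : Fin n) (t : ℝ) : Fin n → ℝ :=
  fun l => if l = k then Real.exp (-(((n : ℝ) - 1) * t)) else Real.exp t

/-- the limit set of `L` modulo `GL_n(ℤ)` under this one-parameter group along the times in `𝒯` -/
def LimitSet (L : Fin n → Fin n → ℝ) (k : Fin n) (𝒯 : Set ℝ) : Set (Fin n → Fin n → ℝ) :=
  ⋂ m : ℕ, closure {H | ∃ (t : ℝ) (γ : Matrix (Fin n) (Fin n) ℤ), Set.Icc (t - m) (t + m) ⊆ 𝒯 ∧
    |γ.det| = 1 ∧ ∀ i j, H i j = ray k t i * ∑ l, L i l * (γ l j : ℝ)}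

lemma limitSet_eq (L : Fin n → Fin n → ℝ) (k : Fin n) (𝒯 : Set ℝ) :
    LimitSet L k 𝒯 = X87.CSD.LimSet (Matrix.of L) k 𝒯 := by
  unfold LimitSet X87.CSD.LimSet
  congr 1
  funext m
  refine congrArg closure ?_
  ext H
  have key : ∀ (t : ℝ) (γ : Matrix (Fin n) (Fin n) ℤ),
      (∀ i j, H i j = ray k t i * ∑ l, L i l * (γ l j : ℝ)) ↔
      H = Matrix.diagonal (ray k t) * Matrix.of L * γ.map (Int.cast : ℤ → ℝ) := by
    intro t γ
    have h1 : ∀ i j, (Matrix.diagonal (ray k t) * Matrix.of L * γ.map (Int.cast : ℤ → ℝ)) i j =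
        ray k t i * ∑ l, L i l * (γ l j : ℝ) := by
      intro i j
      rw [Matrix.mul_assoc, Matrix.diagonal_mul, Matrix.mul_apply]
      rfl
    constructor
    · intro h
      funext i j
      rw [h i j, h1]
    · intro h i j
      rw [h, h1]
  constructor
  · rintro ⟨t, γ, ht, hγ, hh⟩
    exact ⟨t, γ, ht, Int.isUnit_iff_abs_eq.2 hγ, (key t γ).1 hh⟩
  · rintro ⟨t, γ, ht, hγ, hh⟩
    exact ⟨t, γ, ht, Int.isUnit_iff_abs_eq.1 hγ, (key t γ).2 hh⟩

lemma hprop (hn : 3 ≤ n) {L : Fin n → Fin n → ℝ} (hL : Admissible L) :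
    HasMatrix L ↔ H715R2.PropInt (Matrix.of L) := by
  obtain ⟨hL, ν, hν, hF⟩ := hL
  have hdet := Pool.Agent.H905R2.Opp.det_ne hL
  constructor
  · rintro ⟨A, -, hA1, -, hA2⟩
    exact Y327.propInt_of_opp hn hdet hν hF hA1 hA2
  · exact fun hP => Pool.Agent.H905R2.Opp.opp_of_propInt (by omega) hL ⟨ν, hν, hF⟩ hP

lemma common_nu {L L' : Fin n → Fin n → ℝ} (hL : BoundedAway L) (hL' : BoundedAway L') :
    ∃ ν : ℝ, 0 < ν ∧ H715R2.HasNu (Matrix.of L) ν ∧ H715R2.HasNu (Matrix.of L') ν := by
  obtain ⟨ν, hν, h⟩ := hL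
  obtain ⟨ν', hν', h'⟩ := hL'
  exact ⟨min ν ν', lt_min hν hν', fun m hm => (min_le_left _ _).trans (h m hm),
    fun m hm => (min_le_right _ _).trans (h' m hm)⟩

lemma share (hn : 3 ≤ n) {L L' : Fin n → Fin n → ℝ} (hL : Admissible L) (hL' : Admissible L')
    (hM : HasMatrix L) {i j : Fin n} {s : ℝ} (hs : s ≠ 0) (hrow : L' j = s • L i) :
    HasMatrix L' ∧ SameHyperplanes L L' := by
  obtain ⟨ν, hν, hnu, hnu'⟩ := common_nu hL.2 hL'.2
  have hd := Pool.Agent.H905R2.Opp.det_ne hL.1
  have hd' := Pool.Agent.H905R2.Opp.det_ne hL'.1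
  have hM' : HasMatrix L' := (hprop hn hL').2
    (X87.CSD.common_factor hn hd hd' hν hnu hnu' ((hprop hn hL).1 hM) hs hrow)
  refine ⟨hM', ?_⟩
  obtain ⟨A, -, hA1, -, hA2⟩ := hM
  obtain ⟨B, -, hB1, -, hB2⟩ := hM'
  obtain ⟨c, hc, hAg⟩ := Pool.Agent.Y327.eig_of_opp hd hA1 hA2
  obtain ⟨c', hc', hBg⟩ := Pool.Agent.Y327.eig_of_opp hd' hB1 hB2
  exact X87.OP.share_all hd hd' hν hnu hc hc' hAg hBg hs hrow

lemma of_det {L : Fin n → Fin n → ℝ} (h : (Matrix.of L).det ≠ 0) : LinearIndependent ℝ L :=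
  Matrix.linearIndependent_rows_of_det_ne_zero h

lemma pair0 {L : Fin n → Fin n → ℝ} (h : LinearIndependent ℝ L) {i j : Fin n} (hij : i ≠ j)
    {a b : ℝ} (e : a • L i + b • L j = 0) : a = 0 ∧ b = 0 := by
  have hinj : Function.Injective ![i, j] := by
    intro x y hxy
    fin_cases x <;> fin_cases y <;> simp_all
  have h1 := h.comp ![i, j] hinj
  have h2 : L ∘ ![i, j] = ![L i, L j] := by
    funext x
    fin_cases x <;> rfl
  rw [h2] at h1
  exact LinearIndependent.pair_iff.1 h1 a b e

/-- Main theorem. -/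
theorem result (n : ℕ) (hn : 3 ≤ n) :
    -- 1. one common hyperplane
    (∀ L L' : Fin n → Fin n → ℝ, Admissible L → Admissible L' → HasMatrix L →
      (∃ (i j : Fin n) (s : ℝ), s ≠ 0 ∧ L' j = s • L i) → HasMatrix L' ∧ SameHyperplanes L L') ∧
    -- 2. the criterion for a single arrangement
    (∀ L : Fin n → Fin n → ℝ, Admissible L → ∀ (k : Fin n) (𝒯 : Set ℝ), LongIntervals 𝒯 →
      (HasMatrix L ↔ ∀ H ∈ LimitSet L k 𝒯, ∀ H' ∈ LimitSet L k 𝒯,
        (∀ j, j ≠ k → H' j = H j) → ∃ c : ℝ, H' k = c • H k)) ∧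
    -- 3. the conjecture
    (Oppenheim n ↔ ∀ L L' : Fin n → Fin n → ℝ, Admissible L → Admissible L' →
      (∃ (i j : Fin n) (s : ℝ), s ≠ 0 ∧ L' j = s • L i) → SameHyperplanes L L') ∧
    (Oppenheim n ↔ ∀ L L' : Fin n → Fin n → ℝ, Admissible L → Admissible L' →
      ∀ k : Fin n, (∀ j, j ≠ k → L' j = L j) → ∃ c : ℝ, L' k = c • L k) ∧
    (∀ i j : Fin n, i ≠ j → (Oppenheim n ↔ ∀ L : Fin n → Fin n → ℝ, Admissible L →
      ¬ Admissible (Function.update L i (L i + L j)))) := by
  classical
  have h1 : ∀ L L' : Fin n → Fin n → ℝ, Admissible L → Admissible L' → HasMatrix L →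
      (∃ (i j : Fin n) (s : ℝ), s ≠ 0 ∧ L' j = s • L i) →
      HasMatrix L' ∧ SameHyperplanes L L' := by
    rintro L L' hL hL' hM ⟨i, j, s, hs, hrow⟩
    exact share hn hL hL' hM hs hrow
  have h2 : ∀ L : Fin n → Fin n → ℝ, Admissible L → ∀ (k : Fin n) (𝒯 : Set ℝ),
      LongIntervals 𝒯 → (HasMatrix L ↔ ∀ H ∈ LimitSet L k 𝒯, ∀ H' ∈ LimitSet L k 𝒯,
        (∀ j, j ≠ k → H' j = H j) → ∃ c : ℝ, H' k = c • H k) := by
    intro L hL k 𝒯 h𝒯
    rw [hprop hn hL, limitSet_eq]
    obtain ⟨hLI, ν, hν, hnu⟩ := hL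
    have hg := Pool.Agent.H905R2.Opp.det_ne hLI
    constructor
    · intro hP h hh h' hh' hrows
      have hs := X87.CSD.LimSet_sub (Matrix.of L) k 𝒯
      have hdet : ∀ h ∈ X87.CSD.LimSet (Matrix.of L) k 𝒯, Matrix.det h ≠ 0 := fun h hh => by
        rw [← abs_ne_zero, H715R2.abs_det_closure (hs hh), abs_ne_zero]; exact hg
      exact X87.CSD.last_factor hn (hdet h hh) (hdet h' hh') hν
        (H715R2.hasNu_closure hnu (hs hh)) (H715R2.hasNu_closure hnu (hs hh'))
        (Y327.propInt_closure hn hg hν hnu hP (hs hh)) hrows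
    · intro hall
      by_contra hint
      obtain ⟨h, hh, h', hh', hrows, hne⟩ := X87.CSD.line_pair hn hg hν hnu hint k h𝒯
      obtain ⟨c, hc⟩ := hall h hh h' hh' hrows
      exact hne c hc
  have key : ∀ i j : Fin n, i ≠ j → (∀ L : Fin n → Fin n → ℝ, Admissible L →
      ¬ Admissible (Function.update L i (L i + L j))) → Oppenheim n := by
    intro i j hij hall L hLI hb
    have hL : Admissible L := ⟨hLI, hb⟩
    obtain ⟨ν, hν, hnu⟩ := hb
    have hg := Pool.Agent.H905R2.Opp.det_ne hLI
    rw [hprop hn hL]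
    by_contra hint
    obtain ⟨g₁, ν₁, hg₁, hν₁, hn1, hn2⟩ := X87.CSD.add_pair hn hg hν hnu hint hij
    refine hall g₁ ⟨of_det hg₁, ν₁, hν₁, hn1⟩ ⟨?_, ν₁, hν₁, hn2⟩
    refine of_det ?_
    have e : Matrix.det (g₁.updateRow i (g₁ i + g₁ j)) = g₁.det :=
      Matrix.det_updateRow_add_self g₁ hij
    rw [show (Matrix.of (Function.update g₁ i (g₁ i + g₁ j)) : Matrix (Fin n) (Fin n) ℝ) =
      g₁.updateRow i (g₁ i + g₁ j) from rfl, e]
    exact hg₁
  have indep : ∀ (L : Fin n → Fin n → ℝ) (i j : Fin n), i ≠ j → LinearIndependent ℝ L →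
      ∀ c : ℝ, L i + L j ≠ c • L i := by
    intro L i j hij hLI c hc
    have h3 : (1 - c) • L i + (1 : ℝ) • L j = 0 := by
      rw [sub_smul, one_smul, one_smul]
      have := sub_eq_zero.2 hc
      rw [← this]; abel
    exact one_ne_zero (pair0 hLI hij h3).2
  have adm : ∀ (L : Fin n → Fin n → ℝ) (i j : Fin n), i ≠ j →
      Function.update L i (L i + L j) j = L j := fun L i j hij =>
    Function.update_of_ne hij.symm _ _
  -- the conjecture implies the strongest uniqueness statement
  have a1 : Oppenheim n → ∀ L L' : Fin n → Fin n → ℝ, Admissible L → Admissible L' →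
      (∃ (i j : Fin n) (s : ℝ), s ≠ 0 ∧ L' j = s • L i) → SameHyperplanes L L' :=
    fun hO L L' hL hL' hc => (h1 L L' hL hL' (hO L hL.1 hL.2) hc).2
  have a2 : (∀ L L' : Fin n → Fin n → ℝ, Admissible L → Admissible L' →
      (∃ (i j : Fin n) (s : ℝ), s ≠ 0 ∧ L' j = s • L i) → SameHyperplanes L L') →
      ∀ L L' : Fin n → Fin n → ℝ, Admissible L → Admissible L' →
      ∀ k : Fin n, (∀ j, j ≠ k → L' j = L j) → ∃ c : ℝ, L' k = c • L k := by
    intro hall L L' hL hL' k hrows
    obtain ⟨j, hj⟩ : ∃ j : Fin n, j ≠ k := by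
      by_contra hcon
      push Not at hcon
      have e : Fintype.card (Fin n) ≤ 1 := Fintype.card_le_one_iff.2 fun a b => by
        rw [hcon a, hcon b]
      rw [Fintype.card_fin] at e
      omega
    obtain ⟨σ, hσ⟩ := hall L L' hL hL' ⟨j, j, 1, one_ne_zero, by rw [one_smul, hrows j hj]⟩
    have hfix : ∀ l, l ≠ k → σ l = l := by
      intro l hl
      by_contra hne
      obtain ⟨a, ha, he⟩ := hσ l
      rw [hrows l hl] at he
      have e3 : (1 : ℝ) • L l + (-a) • L (σ l) = 0 := by
        rw [one_smul, neg_smul, ← he]; abel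
      exact one_ne_zero (pair0 hL.1 (Ne.symm hne) e3).1
    have hk : σ k = k := by
      by_contra hne
      exact hne (σ.injective (hfix _ hne))
    obtain ⟨a, -, he⟩ := hσ k
    exact ⟨a, by rw [he, hk]⟩
  have a3 : (∀ L L' : Fin n → Fin n → ℝ, Admissible L → Admissible L' →
      ∀ k : Fin n, (∀ j, j ≠ k → L' j = L j) → ∃ c : ℝ, L' k = c • L k) →
      ∀ i j : Fin n, i ≠ j → ∀ L : Fin n → Fin n → ℝ, Admissible L →
      ¬ Admissible (Function.update L i (L i + L j)) := by
    intro hall i j hij L hL hL'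
    obtain ⟨c, hc⟩ := hall L _ hL hL' i (fun l hl => Function.update_of_ne hl _ _)
    rw [Function.update_self] at hc
    exact indep L i j hij hL.1 c hc
  have hij : (⟨0, by omega⟩ : Fin n) ≠ ⟨1, by omega⟩ := by
    intro h
    have := congrArg Fin.val h
    norm_num at this
  refine ⟨h1, h2, ⟨a1, fun h => key _ _ hij (a3 (a2 h) _ _ hij)⟩,
    ⟨fun h => a2 (a1 h), fun h => key _ _ hij (a3 h _ _ hij)⟩,
    fun i j hij' => ⟨fun h => a3 (a2 (a1 h)) i j hij', key i j hij'⟩⟩

end Pool.Agent.Results.MP_77d073_nt.LastHyperplane
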