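import Mathlib
import Pool.Agent.X87.CSD.LineLac
import Pool.Agent.Y327.Full

/-! # MP_77d073_nt: the ratios of one single form near one line decide Oppenheim's conclusion

Let `n ≥ 3` and let `L 1, …, L n` be independent real linear forms whose product is bounded away
from zero at the nonzero integer points. Fix a single index `k` and a set `𝒯` of real numbers which
contains arbitrarily long intervals (for example a half-line, or a sparse sequence of longer and
longer intervals). The integer points near the line `L j = 0 (j ≠ k)` at the time `t`, up to the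
constant `R`, are the nonzero integer points `p` with `|L k (p)| < R exp((n - 1) t)` and
`|L j (p)| < R exp(-t)` for `j ≠ k`. (For `t → -∞` they are near the hyperplane `L k = 0`.)

Call a set `S` of real numbers lacunary if for all `R > 1` and `ε > 0` there is `η < ε` such that no
difference of two elements of `S` has absolute value in `[η, R η]` (countable sets are countable
unions of lacunary sets). The following are equivalent.

* There is an irreducible RS-matrix whose invariant planes are the hyperplanes `L i = 0`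
  (Oppenheim's conclusion).
* For all `R` the set of the ratios `|L k (p)| / |L k (q)|` of the values of the single form `L k` at
  two integer points `p, q` near the line at a common time `t ∈ 𝒯` is finite.
* There are countably many lacunary sets such that for all `R` the closure of this set of ratios is
  contained in their union.

So Oppenheim's conjecture in dimension `n` is equivalent to: for every `L` as above the closures of
these sets of ratios are in a countable union of lacunary sets for at least one `k` and one `𝒯`. -/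

set_option autoImplicit false

open Filter Topology

namespace Pool.Agent.Results.MP_77d073_nt.RatiosNearALine

variable {n : ℕ}

/-- the value of the linear form with the coefficients `L i` at an integer point -/
noncomputable def val (L : Fin n → Fin n → ℝ) (i : Fin n) (p : Fin n → ℤ) : ℝ :=
  ∑ j : Fin n, L i j * (p j : ℝ)

/-- the product of the linear forms with the coefficients `L i`, at an integer point -/
noncomputable def F (L : Fin n → Fin n → ℝ) (p : Fin n → ℤ) : ℝ := ∏ i : Fin n, val L i p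

/-- the product is bounded away from zero at the nonzero integer points -/
def BoundedAway (L : Fin n → Fin n → ℝ) : Prop :=
  ∃ ν : ℝ, 0 < ν ∧ ∀ p : Fin n → ℤ, p ≠ 0 → ν ≤ |F L p|

/-- Oppenheim's conclusion: there is an irreducible RS-matrix whose invariant planes are the
hyperplanes `L i = 0`. -/
def HasMatrix (L : Fin n → Fin n → ℝ) : Prop :=
  ∃ A : Matrix (Fin n) (Fin n) ℤ,
    A.det = 1 ∧
    Irreducible (A.charpoly.map (Int.castRingHom ℚ)) ∧
    (∀ z : ℂ, Polynomial.aeval z A.charpoly = 0 → z.im = 0) ∧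
    ∀ i : Fin n, ∀ x : Fin n → ℝ, ∑ j, L i j * x j = 0 →
      ∑ j, L i j * ((A.map (Int.cast : ℤ → ℝ)).mulVec x) j = 0

/-- Oppenheim's conjecture in dimension `n` -/
def Oppenheim (n : ℕ) : Prop :=
  ∀ L : Fin n → Fin n → ℝ, LinearIndependent ℝ L → BoundedAway L → HasMatrix L

/-- The differences of `S` skip arbitrarily long ranges of scales, arbitrarily close to zero. -/
def Lacunary (S : Set ℝ) : Prop :=
  ∀ R : ℝ, 1 < R → ∀ ε : ℝ, 0 < ε → ∃ η : ℝ, 0 < η ∧ η < ε ∧
    ∀ s ∈ S, ∀ t ∈ S, |s - t| < η ∨ R * η < |s - t|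

/-- the set contains arbitrarily long intervals -/
def LongIntervals (𝒯 : Set ℝ) : Prop := ∀ m : ℕ, ∃ t : ℝ, Set.Icc (t - m) (t + m) ⊆ 𝒯

/-- the nonzero integer points near the line number `k` at the time `t` -/
def Near (L : Fin n → Fin n → ℝ) (k : Fin n) (t R : ℝ) : Set (Fin n → ℤ) :=
  {p | p ≠ 0 ∧ |val L k p| < R * Real.exp (((n : ℝ) - 1) * t) ∧
    ∀ j, j ≠ k → |val L j p| < R * Real.exp (-t)}

/-- the ratios of the form `k` at two points near the line at a common time in `𝒯` -/
def Ratios (L : Fin n → Fin n → ℝ) (k : Fin n) (𝒯 : Set ℝ) (R : ℝ) : Set ℝ :=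
  {v | ∃ t ∈ 𝒯, ∃ p ∈ Near L k t R, ∃ q ∈ Near L k t R, |val L k p| / |val L k q| = v}

lemma near_eq (L : Fin n → Fin n → ℝ) (k : Fin n) (t R : ℝ) :
    Near L k t R = X87.CSD.SmallAt (Matrix.of L) k t R := by
  have key : ∀ (s y R : ℝ), Real.exp s * y < R ↔ y < R * Real.exp (-s) := by
    intro s y R
    rw [Real.exp_neg, ← div_eq_mul_inv, lt_div_iff₀ (Real.exp_pos s), mul_comm]
  ext p
  constructor
  · rintro ⟨h0, h1, h2⟩
    refine ⟨h0, fun j => ?_⟩
    by_cases hj : j = k
    · subst hj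
      rw [X87.CSD.at1, if_pos rfl, key, neg_neg]
      exact h1
    · rw [X87.CSD.at1, if_neg hj, key]
      exact h2 j hj
  · rintro ⟨h0, h⟩
    refine ⟨h0, ?_, fun j hj => ?_⟩
    · have h1 := h k
      rw [X87.CSD.at1, if_pos rfl, key, neg_neg] at h1
      exact h1
    · have h1 := h j
      rw [X87.CSD.at1, if_neg hj, key] at h1
      exact h1

lemma ratios_eq (L : Fin n → Fin n → ℝ) (k : Fin n) (𝒯 : Set ℝ) (R : ℝ) :
    Ratios L k 𝒯 R = X87.CSD.LineRatios (Matrix.of L) k 𝒯 R := by
  unfold Ratios X87.CSD.LineRatios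
  simp only [near_eq]
  rfl

lemma crit (hn : 3 ≤ n) {L : Fin n → Fin n → ℝ} (hL : LinearIndependent ℝ L)
    (hb : BoundedAway L) (k : Fin n) {𝒯 : Set ℝ} (h𝒯 : LongIntervals 𝒯) :
    (HasMatrix L ↔ ∀ R : ℝ, (Ratios L k 𝒯 R).Finite) ∧
    (HasMatrix L ↔ ∃ C : ℕ → Set ℝ, (∀ m, Lacunary (C m)) ∧
      ∀ R : ℝ, closure (Ratios L k 𝒯 R) ⊆ ⋃ m, C m) := by
  obtain ⟨ν, hν, hF⟩ := hb
  have hdet := Pool.Agent.H905R2.Opp.det_ne hL
  have hprop : HasMatrix L ↔ H715R2.PropInt (Matrix.of L) := by
    constructor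
    · rintro ⟨A, -, hA1, -, hA2⟩
      exact Y327.propInt_of_opp hn hdet hν hF hA1 hA2
    · exact fun hP => Pool.Agent.H905R2.Opp.opp_of_propInt (by omega) hL ⟨ν, hν, hF⟩ hP
  have h1 : HasMatrix L → ∀ R : ℝ, (Ratios L k 𝒯 R).Finite := by
    intro h R
    rw [ratios_eq]
    exact X87.CSD.finite_lineRatios hn hdet hν hF (hprop.1 h) k 𝒯 R
  have h2 : (∀ R : ℝ, (Ratios L k 𝒯 R).Finite) → ∃ C : ℕ → Set ℝ,
      (∀ m, Lacunary (C m)) ∧ ∀ R : ℝ, closure (Ratios L k 𝒯 R) ⊆ ⋃ m, C m := by
    intro h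
    refine X87.CSD.cover_of_finite (fun R R' hRR => ?_) h
    rw [ratios_eq, ratios_eq]
    exact X87.CSD.lineRatios_mono hRR
  have h3 : (∃ C : ℕ → Set ℝ, (∀ m, Lacunary (C m)) ∧
      ∀ R : ℝ, closure (Ratios L k 𝒯 R) ⊆ ⋃ m, C m) → HasMatrix L := by
    rintro ⟨C, hC, hcov⟩
    refine hprop.2 (X87.CSD.line_ratios_lac hn hdet hν hF k h𝒯 C hC fun R => ?_)
    rw [← ratios_eq]
    exact hcov R
  exact ⟨⟨h1, fun h => h3 (h2 h)⟩, ⟨fun h => h2 (h1 h), h3⟩⟩

/-- Main theorem. -/
theorem result (n : ℕ) (hn : 3 ≤ n) :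
    -- 1. the criterion
    (∀ L : Fin n → Fin n → ℝ, LinearIndependent ℝ L → BoundedAway L →
      ∀ (k : Fin n) (𝒯 : Set ℝ), LongIntervals 𝒯 →
        (HasMatrix L ↔ ∀ R : ℝ, (Ratios L k 𝒯 R).Finite) ∧
        (HasMatrix L ↔ ∃ C : ℕ → Set ℝ, (∀ m, Lacunary (C m)) ∧
          ∀ R : ℝ, closure (Ratios L k 𝒯 R) ⊆ ⋃ m, C m)) ∧
    -- 2. the conjecture
    (Oppenheim n ↔ ∀ L : Fin n → Fin n → ℝ, LinearIndependent ℝ L → BoundedAway L →
      ∃ (k : Fin n) (𝒯 : Set ℝ), LongIntervals 𝒯 ∧ ∃ C : ℕ → Set ℝ, (∀ m, Lacunary (C m)) ∧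
        ∀ R : ℝ, closure (Ratios L k 𝒯 R) ⊆ ⋃ m, C m) := by
  refine ⟨fun L hL hb k 𝒯 h𝒯 => crit hn hL hb k h𝒯, ?_, ?_⟩
  · intro hO L hL hb
    have huniv : LongIntervals Set.univ := fun m => ⟨0, Set.subset_univ _⟩
    exact ⟨⟨0, by omega⟩, Set.univ, huniv,
      (crit hn hL hb ⟨0, by omega⟩ huniv).2.1 (hO L hL hb)⟩
  · intro h L hL hb
    obtain ⟨k, 𝒯, h𝒯, hC⟩ := h L hL hb
    exact (crit hn hL hb k h𝒯).2.2 hC

end Pool.Agent.Results.MP_77d073_nt.RatiosNearALine
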