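import Mathlib
import Pool.Agent.Results.MP_edeaa2_an.TopOfSpectrum
import Pool.Agent.Y327.Full

/-! # MP_77d073_nt: the level sets of the normalised infimum and Oppenheim's conjecture

Let `n ≥ 3`; an arrangement is given by `n` linearly independent real linear forms `L 1, …, L n`,
`nu L` is the infimum of the modulus of their product at the nonzero integer points and
`nuBar L = nu L / |det L|`. Two arrangements are equivalent if an element of `GL_n(ℤ)` takes the
hyperplanes of one to the hyperplanes of the other.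

1. If all arrangements with `nuBar L ≥ δ > 0` satisfy Oppenheim's conclusion, then there are only
   finitely many classes of them.
2. If Oppenheim's conjecture fails in dimension `n`, then the numbers `nuBar L` of the arrangements
   without Oppenheim's matrix have a maximum `θ > 0`. It is attained by a recurrent arrangement which
   takes its infimum at a nonzero integer point. If `L` is any arrangement without Oppenheim's matrix
   and `nuBar L = θ`, then the same is true for all the arrangements in its orbit closure, and they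
   do not lie in countably many classes.
3. Oppenheim's conjecture in dimension `n` is equivalent to: for every `δ > 0` the arrangements with
   `nuBar L = δ` lie in finitely many classes; and also to: for every `δ > 0` they lie in countably
   many classes. -/

set_option autoImplicit false

open Filter Topology Matrix

namespace Pool.Agent.Results.MP_77d073_nt.TopLevel

variable {n : ℕ}

/-- the value of the linear form with the coefficients `L i` at an integer point -/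
noncomputable def val (L : Fin n → Fin n → ℝ) (i : Fin n) (p : Fin n → ℤ) : ℝ :=
  ∑ j : Fin n, L i j * (p j : ℝ)

/-- the product of the linear forms with the coefficients `L i`, at an integer point -/
noncomputable def F (L : Fin n → Fin n → ℝ) (p : Fin n → ℤ) : ℝ := ∏ i : Fin n, val L i p

/-- the infimum of the modulus of the product at the nonzero integer points -/
noncomputable def nu (L : Fin n → Fin n → ℝ) : ℝ := ⨅ p : {p : Fin n → ℤ // p ≠ 0}, |F L p.1|

/-- the normalised infimum -/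
noncomputable def nuBar (L : Fin n → Fin n → ℝ) : ℝ := nu L / |(Matrix.of L).det|

/-- Oppenheim's conclusion: there is an irreducible RS-matrix whose invariant planes are the
hyperplanes `L i = 0`. -/
def HasMatrix (L : Fin n → Fin n → ℝ) : Prop :=
  ∃ A : Matrix (Fin n) (Fin n) ℤ,
    A.det = 1 ∧
    Irreducible (A.charpoly.map (Int.castRingHom ℚ)) ∧
    (∀ z : ℂ, Polynomial.aeval z A.charpoly = 0 → z.im = 0) ∧
    ∀ i : Fin n, ∀ x : Fin n → ℝ, ∑ j, L i j * x j = 0 →
      ∑ j, L i j * ((A.map (Int.cast : ℤ → ℝ)).mulVec x) j = 0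

/-- Oppenheim's conjecture in dimension `n` -/
def Oppenheim (n : ℕ) : Prop :=
  ∀ L : Fin n → Fin n → ℝ, LinearIndependent ℝ L → 0 < nu L → HasMatrix L

/-- the forms `L i` composed with the matrix `γ` -/
def act (L : Fin n → Fin n → ℝ) (γ : Matrix (Fin n) (Fin n) ℤ) : Fin n → Fin n → ℝ :=
  fun i j => ∑ l, L i l * (γ l j : ℝ)

/-- An element of `GL_n(ℤ)` takes the hyperplanes `L i = 0` to the hyperplanes `L' i = 0`. -/
def Equivalent (L L' : Fin n → Fin n → ℝ) : Prop :=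
  ∃ (γ : Matrix (Fin n) (Fin n) ℤ) (σ : Equiv.Perm (Fin n)), |γ.det| = 1 ∧
    ∀ i : Fin n, ∃ a : ℝ, a ≠ 0 ∧ L i = a • act L' γ (σ i)

/-- The closure of the set of the `L` composed with elements of `GL_n(ℤ)` and with the forms
multiplied by positive numbers of product one. -/
def OrbitClosure (L : Fin n → Fin n → ℝ) : Set (Fin n → Fin n → ℝ) :=
  closure {H | ∃ (a : Fin n → ℝ) (γ : Matrix (Fin n) (Fin n) ℤ), (∀ i, 0 < a i) ∧ ∏ i, a i = 1 ∧
    |γ.det| = 1 ∧ ∀ i, H i = a i • act L γ i}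

/-- The orbit closure of `L` is minimal. -/
def Recurrent (L : Fin n → Fin n → ℝ) : Prop := ∀ H ∈ OrbitClosure L, L ∈ OrbitClosure H



lemma closure_eq (L : Fin n → Fin n → ℝ) :
    OrbitClosure L = Pool.Agent.Results.MP_edeaa2_an.TopOfSpectrum.OrbitClosure (Matrix.of L) := by
  unfold OrbitClosure Pool.Agent.Results.MP_edeaa2_an.TopOfSpectrum.OrbitClosure
  refine congrArg closure ?_
  ext H
  have key : ∀ (a : Fin n → ℝ) (γ : Matrix (Fin n) (Fin n) ℤ),
      (∀ i, H i = a i • act L γ i) ↔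
      H = Matrix.diagonal a * Matrix.of L * γ.map (Int.cast : ℤ → ℝ) := by
    intro a γ
    have h1 : ∀ i j, (Matrix.diagonal a * Matrix.of L * γ.map (Int.cast : ℤ → ℝ)) i j =
        (a i • act L γ i) j := by
      intro i j
      rw [Matrix.mul_assoc, Matrix.diagonal_mul, Matrix.mul_apply]
      rfl
    constructor
    · intro h
      funext i j
      rw [h i, h1]
    · intro h i
      funext j
      rw [h, h1]
  constructor
  · rintro ⟨a, γ, h1, h2, h3, h4⟩
    exact ⟨a, γ, h1, h2, h3, (key a γ).1 h4⟩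
  · rintro ⟨a, γ, h1, h2, h3, h4⟩
    exact ⟨a, γ, h1, h2, h3, (key a γ).2 h4⟩

lemma mem_iff (H L : Fin n → Fin n → ℝ) : H ∈ OrbitClosure L ↔
    (H : Matrix (Fin n) (Fin n) ℝ) ∈
      Pool.Agent.Results.MP_edeaa2_an.TopOfSpectrum.OrbitClosure (L : Matrix (Fin n) (Fin n) ℝ) :=
  Iff.of_eq (congrArg (fun S : Set (Fin n → Fin n → ℝ) => H ∈ S) (closure_eq L))

lemma nu_eq (L : Fin n → Fin n → ℝ) :
    nu L = Pool.Agent.Results.MP_edeaa2_an.TopOfSpectrum.nu (Matrix.of L) := rfl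

lemma nuBar_eq (L : Fin n → Fin n → ℝ) : nuBar L = Pool.Agent.Results.MP_edeaa2_an.TopOfSpectrum.nuBar (Matrix.of L) := rfl

lemma hprop (hn : 3 ≤ n) {L : Fin n → Fin n → ℝ} (hL : LinearIndependent ℝ L) (h : 0 < nu L) :
    HasMatrix L ↔ H715R2.PropInt (Matrix.of L) := by
  have hF : H715R2.HasNu (Matrix.of L) (nu L) :=
    Pool.Agent.Results.MP_edeaa2_an.TopOfSpectrum.hasNu_nu (by omega) (Matrix.of L)
  have hdet := Pool.Agent.H905R2.Opp.det_ne hL
  constructor
  · rintro ⟨A, -, hA1, -, hA2⟩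
    exact Y327.propInt_of_opp hn hdet h hF hA1 hA2
  · exact fun hP => Pool.Agent.H905R2.Opp.opp_of_propInt (by omega) hL ⟨nu L, h, hF⟩ hP

lemma nu_pos {L : Fin n → Fin n → ℝ} (h : 0 < nuBar L) : 0 < nu L := by
  by_contra hc
  have h1 : nuBar L ≤ 0 := div_nonpos_of_nonpos_of_nonneg (not_lt.1 hc) (abs_nonneg _)
  exact absurd h (not_lt.2 h1)

lemma equiv_form {L L' : Fin n → Fin n → ℝ} (h : Equivalent L L') :
    Pool.Agent.Results.MP_edeaa2_an.TopOfSpectrum.Equivalent (Matrix.of L) (Matrix.of L') := by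
  obtain ⟨γ, σ, hγ, h⟩ := h
  choose a ha0 ha using h
  refine ⟨γ, ∏ i, a i, hγ, Finset.prod_ne_zero_iff.2 fun i _ => ha0 i, fun x => ?_⟩
  unfold Pool.Agent.Results.MP_edeaa2_an.TopOfSpectrum.F
  have h1 : ∀ i, ∑ j, (act L' γ i) j * x j =
      ∑ m, (Matrix.of L') i m * ((γ.map (Int.cast : ℤ → ℝ)).mulVec x) m := by
    intro i
    simp only [act, Matrix.mulVec, dotProduct, Matrix.map_apply, Matrix.of_apply]
    simp only [Finset.sum_mul, Finset.mul_sum]
    rw [Finset.sum_comm]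
    refine Finset.sum_congr rfl fun m _ => Finset.sum_congr rfl fun j _ => by ring
  have h2 : ∀ i, ∑ j, (Matrix.of L) i j * x j = a i * ∑ j, (act L' γ (σ i)) j * x j := by
    intro i
    rw [Finset.mul_sum]
    refine Finset.sum_congr rfl fun j _ => ?_
    rw [Matrix.of_apply, ha i, Pi.smul_apply, smul_eq_mul]
    ring
  rw [Finset.prod_congr rfl fun i _ => h2 i, Finset.prod_mul_distrib,
    Equiv.prod_comp σ (fun i => ∑ j, (act L' γ i) j * x j)]
  rw [Finset.prod_congr rfl fun i _ => h1 i]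

/-- finiteness above the arrangements without matrix -/
lemma finite_top (hn : 3 ≤ n) {δ : ℝ} (hδ : 0 < δ)
    (hall : ∀ L : Fin n → Fin n → ℝ, LinearIndependent ℝ L → δ ≤ nuBar L → HasMatrix L) :
    ∃ S : Finset (Fin n → Fin n → ℝ), ∀ L : Fin n → Fin n → ℝ, LinearIndependent ℝ L →
      δ ≤ nuBar L → ∃ s ∈ S, Equivalent L s := by
  have hn0 : 0 < n := by omega
  obtain ⟨S, hS, hS'⟩ := X87.CSD.finite_classes (d := n) hn one_pos hδ (fun h hh => by
    have hdet := X87.CSD.det_ne_of_NN one_pos hh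
    have hLI : LinearIndependent ℝ h := Matrix.linearIndependent_rows_of_det_ne_zero hdet
    have e : nuBar (n := n) h = nu h := by
      have e1 : |(Matrix.of h).det| = 1 := hh.1
      show nu h / |(Matrix.of h).det| = nu h
      rw [e1, div_one]
    have h1 : δ ≤ nu h := H715R2.le_nuInf hn0 hh.2
    exact (hprop hn hLI (hδ.trans_le h1)).1 (hall h hLI (by rw [e]; exact h1)))
  refine ⟨S, fun L hL hδL => ?_⟩
  have hdetL := Pool.Agent.H905R2.Opp.det_ne hL
  obtain ⟨c, hc0, hdet, hnu, -, -⟩ :=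
    Pool.Agent.Results.MP_edeaa2_an.TopOfSpectrum.normalise hn0 hdetL
  have hmem : c • (Matrix.of L) ∈ X87.CSD.NN n 1 δ := by
    refine ⟨hdet, fun m hm => ?_⟩
    have h1 := Pool.Agent.Results.MP_edeaa2_an.TopOfSpectrum.hasNu_nu hn0 (c • (Matrix.of L)) m hm
    rw [hnu] at h1
    exact hδL.trans h1
  obtain ⟨s, hs, a, γ, ha0, ha, hγ, he⟩ := hS' _ hmem
  refine ⟨s, hs, γ, Equiv.refl _, Int.isUnit_iff_abs_eq.1 hγ, fun i =>
    ⟨c⁻¹ * a i, mul_ne_zero (inv_ne_zero hc0.ne') (ha0 i).ne', ?_⟩⟩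
  funext j
  have h1 := congrFun (congrFun he i) j
  rw [Matrix.smul_apply, Matrix.of_apply, smul_eq_mul, Matrix.mul_assoc, Matrix.diagonal_mul,
    Matrix.mul_apply] at h1
  rw [Pi.smul_apply, smul_eq_mul, mul_assoc]
  have h2 : L i j = c⁻¹ * (c * L i j) := by
    rw [← mul_assoc, inv_mul_cancel₀ hc0.ne', one_mul]
  rw [h2, h1]
  rfl

/-- Main theorem. -/
theorem result (n : ℕ) (hn : 3 ≤ n) :
    -- 1. finiteness above the arrangements without matrix
    (∀ δ : ℝ, 0 < δ →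
      (∀ L : Fin n → Fin n → ℝ, LinearIndependent ℝ L → δ ≤ nuBar L → HasMatrix L) →
      ∃ S : Finset (Fin n → Fin n → ℝ), ∀ L : Fin n → Fin n → ℝ, LinearIndependent ℝ L →
        δ ≤ nuBar L → ∃ s ∈ S, Equivalent L s) ∧
    -- 2. the largest normalised infimum of an arrangement without matrix
    (¬ Oppenheim n → ∃ θ : ℝ, 0 < θ ∧
      (∀ L : Fin n → Fin n → ℝ, LinearIndependent ℝ L → ¬ HasMatrix L → nuBar L ≤ θ) ∧
      (∃ L : Fin n → Fin n → ℝ, LinearIndependent ℝ L ∧ ¬ HasMatrix L ∧ nuBar L = θ ∧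
        Recurrent L ∧ ∃ p : Fin n → ℤ, p ≠ 0 ∧ |F L p| = nu L) ∧
      ∀ L : Fin n → Fin n → ℝ, LinearIndependent ℝ L → ¬ HasMatrix L → nuBar L = θ →
        (∀ H ∈ OrbitClosure L, LinearIndependent ℝ H ∧ ¬ HasMatrix H ∧ nuBar H = θ) ∧
        ∀ S : ℕ → (Fin n → Fin n → ℝ), ∃ H ∈ OrbitClosure L, ∀ m, ¬ Equivalent H (S m)) ∧
    -- 3. the conjecture in terms of the level sets
    (Oppenheim n ↔ ∀ δ : ℝ, 0 < δ → ∃ S : Finset (Fin n → Fin n → ℝ),
      ∀ L : Fin n → Fin n → ℝ, LinearIndependent ℝ L → nuBar L = δ → ∃ s ∈ S, Equivalent L s) ∧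
    (Oppenheim n ↔ ∀ δ : ℝ, 0 < δ → ∃ S : ℕ → (Fin n → Fin n → ℝ),
      ∀ L : Fin n → Fin n → ℝ, LinearIndependent ℝ L → nuBar L = δ →
        ∃ m, Equivalent L (S m)) := by
  have hn0 : 0 < n := by omega
  have p2 : ¬ Oppenheim n → ∃ θ : ℝ, 0 < θ ∧
      (∀ L : Fin n → Fin n → ℝ, LinearIndependent ℝ L → ¬ HasMatrix L → nuBar L ≤ θ) ∧
      (∃ L : Fin n → Fin n → ℝ, LinearIndependent ℝ L ∧ ¬ HasMatrix L ∧ nuBar L = θ ∧
        Recurrent L ∧ ∃ p : Fin n → ℤ, p ≠ 0 ∧ |F L p| = nu L) ∧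
      ∀ L : Fin n → Fin n → ℝ, LinearIndependent ℝ L → ¬ HasMatrix L → nuBar L = θ →
        (∀ H ∈ OrbitClosure L, LinearIndependent ℝ H ∧ ¬ HasMatrix H ∧ nuBar H = θ) ∧
        ∀ S : ℕ → (Fin n → Fin n → ℝ), ∃ H ∈ OrbitClosure L, ∀ m, ¬ Equivalent H (S m) := by
    intro hO
    unfold Oppenheim at hO
    push Not at hO
    obtain ⟨L₀, hL₀, hnu₀, hM₀⟩ := hO
    have hdet₀ := Pool.Agent.H905R2.Opp.det_ne hL₀
    obtain ⟨θ, hθ, hmax, ⟨g, hg, hint, hgθ, hrec, x, hx, hxnu⟩, hch⟩ :=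
      Pool.Agent.Results.MP_edeaa2_an.TopOfSpectrum.part2 hn ⟨Matrix.of L₀, hdet₀,
        fun hP => hM₀ ((hprop hn hL₀ hnu₀).2 hP),
        (div_pos hnu₀ (abs_pos.2 hdet₀)).ne'⟩
    have hmax' : ∀ L : Fin n → Fin n → ℝ, LinearIndependent ℝ L → ¬ HasMatrix L →
        nuBar L ≤ θ := by
      intro L hL hM
      by_contra hcon
      have h1 : 0 < nuBar L := hθ.trans (not_le.1 hcon)
      exact hcon (hmax (Matrix.of L) (Pool.Agent.H905R2.Opp.det_ne hL)
        fun hP => hM ((hprop hn hL (nu_pos h1)).2 hP))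
    refine ⟨θ, hθ, hmax', ?_, ?_⟩
    · have hLI : LinearIndependent ℝ g := Matrix.linearIndependent_rows_of_det_ne_zero hg
      have hgθ' : nuBar g = θ := hgθ
      refine ⟨g, hLI, fun hM => hint ((hprop hn hLI (nu_pos (by rw [hgθ']; exact hθ))).1 hM),
        hgθ', ?_, x, hx, hxnu⟩
      intro H hH
      exact (mem_iff (n := n) g H).2 (hrec H ((mem_iff (n := n) H g).1 hH))
    · intro L hL hM hLθ
      have hdet := Pool.Agent.H905R2.Opp.det_ne hL
      obtain ⟨c1, c2⟩ := hch (Matrix.of L) hdet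
        (fun hP => hM ((hprop hn hL (nu_pos (by rw [hLθ]; exact hθ))).2 hP)) hLθ
      refine ⟨fun H hH => ?_, fun S => ?_⟩
      · rw [closure_eq] at hH
        obtain ⟨d1, d2⟩ := c1 H hH
        have hdetH : Matrix.det (H : Matrix (Fin n) (Fin n) ℝ) ≠ 0 := by
          rw [Pool.Agent.Results.MP_edeaa2_an.TopOfSpectrum.closure_eq] at hH
          rw [← abs_ne_zero, H715R2.abs_det_closure hH, abs_ne_zero]
          exact hdet
        have hLI : LinearIndependent ℝ H := Matrix.linearIndependent_rows_of_det_ne_zero hdetH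
        have d2' : nuBar H = θ := d2
        exact ⟨hLI, fun hM' => d1 ((hprop hn hLI (nu_pos (by rw [d2']; exact hθ))).1 hM'), d2'⟩
      · obtain ⟨H, hH, hne⟩ := c2 fun m => Matrix.of (S m)
        exact ⟨H, by rw [closure_eq]; exact hH, fun m hE => hne m (equiv_form hE)⟩
  have h12 : Oppenheim n → ∀ δ : ℝ, 0 < δ → ∃ S : Finset (Fin n → Fin n → ℝ),
      ∀ L : Fin n → Fin n → ℝ, LinearIndependent ℝ L → nuBar L = δ →
        ∃ s ∈ S, Equivalent L s := by
    intro hO δ hδ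
    obtain ⟨S, hS⟩ := finite_top hn hδ fun L hL hδL => hO L hL (nu_pos (hδ.trans_le hδL))
    exact ⟨S, fun L hL hLδ => hS L hL hLδ.ge⟩
  have h23 : (∀ δ : ℝ, 0 < δ → ∃ S : Finset (Fin n → Fin n → ℝ),
      ∀ L : Fin n → Fin n → ℝ, LinearIndependent ℝ L → nuBar L = δ →
        ∃ s ∈ S, Equivalent L s) →
      ∀ δ : ℝ, 0 < δ → ∃ S : ℕ → (Fin n → Fin n → ℝ),
      ∀ L : Fin n → Fin n → ℝ, LinearIndependent ℝ L → nuBar L = δ →
        ∃ m, Equivalent L (S m) := by
    intro hS δ hδ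
    obtain ⟨S, hS⟩ := hS δ hδ
    refine ⟨fun m => S.toList.getD m 0, fun L hL hLδ => ?_⟩
    obtain ⟨s, hs, hE⟩ := hS L hL hLδ
    obtain ⟨m, hm, hms⟩ := List.getElem_of_mem (Finset.mem_toList.2 hs)
    refine ⟨m, ?_⟩
    show Equivalent L (S.toList.getD m 0)
    rw [List.getD_eq_getElem _ _ hm, hms]
    exact hE
  have h31 : (∀ δ : ℝ, 0 < δ → ∃ S : ℕ → (Fin n → Fin n → ℝ),
      ∀ L : Fin n → Fin n → ℝ, LinearIndependent ℝ L → nuBar L = δ →
        ∃ m, Equivalent L (S m)) → Oppenheim n := by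
    intro hS
    by_contra hO
    obtain ⟨θ, hθ, -, ⟨L, hL, hM, hLθ, -⟩, hch⟩ := p2 hO
    obtain ⟨S, hS⟩ := hS θ hθ
    obtain ⟨h1, h2⟩ := hch L hL hM hLθ
    obtain ⟨H, hH, hne⟩ := h2 S
    obtain ⟨m, hm⟩ := hS H (h1 H hH).1 (h1 H hH).2.2
    exact hne m hm
  exact ⟨fun δ hδ hall => finite_top hn hδ hall, p2,
    ⟨h12, fun h => h31 (h23 h)⟩, ⟨fun h => h23 (h12 h), h31⟩⟩

end Pool.Agent.Results.MP_77d073_nt.TopLevel
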